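import Pool.Agent.Lib.ZL.All1

/-! On a projective log resolution `Y` of a log canonical pair, if `N = ∑ k i D i` is nef and its
support contains the reduced part `S` of the boundary, then sections of `N` over `S` extend. -/

open scoped Manifold ContDiff

namespace Pool.Agent.Results.MP_e35950_ag.Full

open Pool.Agent.Lib.SV Pool.Agent.Lib.HS Pool.Agent.Lib.GH Pool.Agent.Lib.KP Pool.Agent.Lib.EX
  Pool.Agent.Lib.ZL

theorem result (n : ℕ) (Y ι I : Type) [TopologicalSpace Y] [ChartedSpace (E n) Y]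
    [IsManifold 𝓘(ℂ, E n) ω Y] [CompactSpace Y] [T2Space Y] [ConnectedSpace Y] [Fintype I]
    (G : Y → Mat n) (m M : ℕ) (D : I → Set Y) (ex : Set I) (k : I → ℕ) (l : I → ℤ) (η : Y → ℂ)
    (W : ι → Set Y) (σ : ι → Y → ℂ) (g : ι → ι → Y → ℂ) (u : ι → Y → ℂ)
    (hG : Hermitian G) (hm : 0 < m) (hM : 2 ≤ M) (hR : LogRes n m D ex k l η W σ g)
    (hA : Amp n D) (hL : Lc m M ex k l) (hN : Nef n G D fun i => k i)
    (hu : SecOn n W g (⋃ i ∈ {i | (k i / M - l i / m : ℝ) = 1}, D i) u) :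
    ∃ v, SecOn n W g Set.univ v ∧
      ∀ a, ∀ y ∈ W a ∩ ⋃ i ∈ {i | (k i / M - l i / m : ℝ) = 1}, D i, v a y = u a y :=
  st_H1 n Y ι I G m M D ex k l η W σ g u hG hm hM hR hA hL hN hu

end Pool.Agent.Results.MP_e35950_ag.Full
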