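import Pool.Agent.Lib.DX.Brg

/-! On a compact Kähler manifold that carries a Hermitian metric with non-positive tempered real
bisectional curvature, sections of `m K + m S + D` over `S` extend if `(X, S + c D)` is log
canonical for some `c > 1 / (m - 1)`. -/

open scoped Manifold ContDiff

namespace Pool.Agent.Results.MP_e35950_ag.NonpositiveCurvature

open Pool.Agent.Lib.SV Pool.Agent.Lib.HS Pool.Agent.Lib.GH Pool.Agent.Lib.TB Pool.Agent.Lib.KP
open Pool.Agent.Lib.DX

theorem result (n : ℕ) (X ι : Type) [TopologicalSpace X] [ChartedSpace (E n) X]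
    [IsManifold 𝓘(ℂ, E n) ω X] [CompactSpace X] [T2Space X] [ConnectedSpace X] (g h : X → Mat n)
    (m : ℕ) (c : ℝ) (U : ι → Set X) (f d σ : ι → X → ℂ) (hg : Kaehler g) (hh : Hermitian h)
    (hr : TemperedNonpos h) (hm : 2 ≤ m) (hc : 1 < c * (m - 1)) (hK : Lc n c U f d)
    (hσ : SecOn n m U (f ^ m * d) f σ) :
    ∃ s, PairSec n m 1 U (f ^ m * d) s ∧ ∀ i, ∀ x ∈ U i, InId n m (f i) (s i - σ i) x :=
  Pool.Agent.Lib.DX.main n X ι g h m c U f d σ hg hh hr hm hc hK hσ

end Pool.Agent.Results.MP_e35950_ag.NonpositiveCurvature
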